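import Pool.Agent.J6H91.Tor.Main4

/-!
# MP_4ac1fb_an: which polynomials are shift-cyclic in `D_t(𝔻^d)` for some `t > 1 / d`

Definitions (`Pool/Agent/J6H91/Cyc/Defs.lean`, `Pool/Agent/J6H91/Tor/Refl.lean`): `ShiftCyclic t P` (the
multiples of `P` by polynomials are dense in `D_t(𝔻^d)`); `ZeroFree P` (no zero in `𝔻^d`); `refl F`:
the reflection `z^n conj (F (1 / conj z))`, `n` the multidegree of `F`. An irreducible polynomial is
toral if it divides its reflection.

Theorem. Let `d ≥ 1`. A polynomial `P ∈ ℂ[z_1, …, z_d]` is shift-cyclic in `D_t(𝔻^d)` for some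
`t > 1 / d` if and only if `P` has no zero in `𝔻^d` and no toral irreducible factor of `P` depends on
all the `d` variables.

All zero-free polynomials are shift-cyclic for `t ≤ 1 / d`; so the theorem describes for which of them
this range can be extended. In particular a zero-free irreducible polynomial in exactly `d` variables
is shift-cyclic for some `t > 1 / d` if and only if it is not toral.

Proof of the sufficiency. Let `P` be irreducible and not toral. The homogenization of `P` is
irreducible, and elimination gives a polynomial `R ≠ 0` with `|R(ζ)| ≤ C (1 - |b|)` for all the factors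
`1 - b λ` of the slices `P(λ ζ)`, `ζ ∈ 𝕋^d`. The norm of `(1 - b λ) / (1 - r b λ)` with the weight
`(n + 1)^(1 + δ)` is at most `1 + 4 (1 - |b|)^(-δ)`, uniformly in `r < 1`, and `|R|^(-δ)` is integrable on
`𝕋^d` for small `δ > 0` (integrate along a Kronecker direction). So `P(z) / P(r z)` is bounded in
`D_t(𝔻^d)` for `t ≤ (1 + δ) / d`.
-/

set_option autoImplicit false

namespace Pool.Agent.Results.MP_4ac1fb_an.BeyondOneOverD

open Pool.Agent.J6H91.Cyc Pool.Agent.J6H91.Tor

/-- `P` is shift-cyclic in `D_t(𝔻^d)` for some `t > 1 / d` if and only if `P` has no zero in `𝔻^d` and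
every irreducible factor of `P` which divides its reflection depends on fewer than `d` variables. -/
theorem result (d : ℕ) (hd : 1 ≤ d) (P : MvPolynomial (Fin d) ℂ) :
    (∃ t : ℝ, 1 / d < t ∧ ShiftCyclic t P) ↔ ZeroFree P ∧
      ∀ F : MvPolynomial (Fin d) ℂ, Irreducible F → F ∣ P → F ∣ refl F → F.vars.card < d :=
  main_dichotomy hd (Fintype.card_fin d) P

end Pool.Agent.Results.MP_4ac1fb_an.BeyondOneOverD
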