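import Pool.Agent.J6H91.Tor.Wide

/-!
# MP_4ac1fb_an: classification for products of toral polynomials, all `d`, all `t`

Definitions (`Pool/Agent/J6H91/Cyc/Defs.lean`, `Pool/Agent/J6H91/Tor/*.lean`): `ShiftCyclic t P` (the
multiples of `P` by polynomials are dense in `D_t(𝔻^d)`); `ZeroFree P` (no zero in `𝔻^d`); `refl F`:
the reflection `z^n conj (F (1 / conj z))`, `n` the multidegree of `F`; `WideZeros F`: for some `j`
the projection of `Z(F) ∩ 𝕋^d` along the `j`-th coordinate contains a nonempty open subset of the torus
`𝕋^(d-1)` (the zero set of `F` on `𝕋^d` has the maximal dimension `d - 1`). An irreducible polynomial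
is called toral here if it satisfies `WideZeros F` or divides its reflection.

Theorem. (1) If `P` is shift-cyclic in `D_t(𝔻^d)`, then `P` has no zero in `𝔻^d` and
`t |vars F| ≤ 1` for every toral irreducible factor `F` of `P`. (2) If all the irreducible factors of
`P` are toral, then the converse holds: `P` is shift-cyclic in `D_t(𝔻^d)` if and only if `P` has no zero
in `𝔻^d` and `t |vars F| ≤ 1` for all its irreducible factors `F`. So a toral irreducible polynomial
without zeros in `𝔻^d` which depends on exactly `k` variables is shift-cyclic exactly for `t ≤ 1 / k`.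

Proof of the necessity. By elimination a polynomial with large zero set on the torus is
self-reflective. For a generic point of `𝕋^(k-1)` all the roots in the last variable lie on `𝕋`
(continuity from inside the polydisc, and reflection), they are simple, and all partial derivatives of
`F` are nonzero there. Let `w(x)` be a smooth branch, `χ` a bump function and
`φ(k', m) = ∫ χ(x) exp(2 π i k' x) w(x)^m dx`. This functional kills the multiples of `F`.
Integration by parts in any set `S` of the variables and Bessel's inequality give
`Σ_{k'} ∏_{j ∈ S} (k'_j + 1)^(-2) |φ(k', m)|² ≤ C (m + 1)^(-2|S|)`, whence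
`Σ_{k'} ∏_j (k'_j + 1)^(-t) |φ(k', m)|² ≤ C (m + 1)^(-t (k - 1))` for `0 ≤ t ≤ 2`, and the energy of `φ`
is finite for `t k > 1`.
-/

set_option autoImplicit false

namespace Pool.Agent.Results.MP_4ac1fb_an.ToralClassification

open Pool.Agent.J6H91.Cyc Pool.Agent.J6H91.Tor

/-- (1) If `P` is shift-cyclic in `D_t(𝔻^d)`, then `P` is zero-free in `𝔻^d` and `t |vars F| ≤ 1` for
each irreducible factor `F` of `P` which has a zero set of maximal dimension on the torus or divides
its reflection. (2) If all the irreducible factors of `P` are of this kind, then these conditions are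
also sufficient. -/
theorem result (d : ℕ) (t : ℝ) (P : MvPolynomial (Fin d) ℂ) :
    (ShiftCyclic t P → ZeroFree P ∧
      ∀ F : MvPolynomial (Fin d) ℂ, Irreducible F → F ∣ P → (WideZeros F ∨ F ∣ refl F) →
        t * F.vars.card ≤ 1) ∧
    ((∀ F : MvPolynomial (Fin d) ℂ, Irreducible F → F ∣ P → WideZeros F ∨ F ∣ refl F) →
      (ShiftCyclic t P ↔ ZeroFree P ∧
        ∀ F : MvPolynomial (Fin d) ℂ, Irreducible F → F ∣ P → t * F.vars.card ≤ 1)) :=
  ⟨fun h => necessary_toral h, fun hP => main_toral fun F hF hFP => (hP F hF hFP).imp_right Or.inl⟩

end Pool.Agent.Results.MP_4ac1fb_an.ToralClassification
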