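import Pool.Agent.J6H91.Cyc.Main2

/-!
# MP_4ac1fb_an: zero-free polynomials are shift-cyclic in `D_t(𝔻^d)` exactly up to `t = 1 / d`

Definitions (`Pool/Agent/J6H91/Cyc/Defs.lean`): `weight t k = ∏_j (k_j + 1)^t`,
`normSq t c = Σ_k weight t k |c_k|²`, `MemD t c` (finite norm), `ShiftCyclic t P` (the multiples of
`P` by polynomials are dense in `D_t`), `ZeroFree P` (no zero in the open polydisc).

Theorem. Let `1 ≤ k ≤ d` and `t ∈ ℝ`. The equivalence (`P` is shift-cyclic in `D_t(𝔻^d)` if and only
if `P` has no zero in `𝔻^d`) holds for all polynomials `P` whose irreducible factors depend on at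
most `k` variables if and only if `t ≤ 1 / k`. For `k = d` all polynomials are allowed: the
classification of the shift-cyclic polynomials in `D_t(𝔻^d)` is complete for `t ≤ 1 / d`, and
`1 / d` is the sharp threshold (the polynomial `1 - z_1 ⋯ z_d` is not shift-cyclic for `t > 1 / d`).

Proof. By the inequality between the arithmetic and the geometric mean the norm of `D_t`, `t ≤ 1/d`,
is at most the norm with the weight `k_1 + ⋯ + k_d + 1`, which is an average of the Dirichlet norms of
the slices `λ ↦ f(λ ζ)`, `ζ ∈ 𝕋^d`. The slices of `P(z) / P(r z)` are products of at most `deg P`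
factors `(1 - b λ) / (1 - r b λ)` with `|b| ≤ 1`, which are bounded in the Wiener algebra and in the
Dirichlet space independently of `r` and `b`. So `P(z) / P(r z)` is bounded in `D_t` and converges
weakly to `1` for `r → 1`.
-/

set_option autoImplicit false

namespace Pool.Agent.Results.MP_4ac1fb_an.ZeroFreeThreshold

open Pool.Agent.J6H91.Cyc

/-- Let `1 ≤ k ≤ d`. Among the polynomials all of whose irreducible factors depend on at most `k`
variables, the shift-cyclic ones in `D_t(𝔻^d)` are exactly those without zeros in `𝔻^d` if and only if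
`t ≤ 1 / k`. -/
theorem result (d k : ℕ) (hk : 1 ≤ k) (hkd : k ≤ d) (t : ℝ) :
    t ≤ 1 / k ↔ ∀ P : MvPolynomial (Fin d) ℂ,
      (∀ F : MvPolynomial (Fin d) ℂ, Irreducible F → F ∣ P → F.vars.card ≤ k) →
      (ShiftCyclic t P ↔ ZeroFree P) :=
  main1 d k hk hkd t

end Pool.Agent.Results.MP_4ac1fb_an.ZeroFreeThreshold
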